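import Pool.Agent.K4H4.CL.Ell

/-!
# The central limit theorem for the Frobenius angles at `s` consecutive primes, in every polynomial family of elliptic curves

For every bounded function `φ` of `s` variables (for instance the indicator of a box) the sum of `φ (x_k, …, x_{k+s-1})` over `k < K` is
asymptotically normally distributed when the curve runs through a polynomial family in `d` parameters, the parameters in any box with
sides at least `K ^ C`. The mean and the variance are those of the finite-field model. In particular the deviation from the model is at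
least `δ √K` for almost all members: the exponent `1/2` of the question is attained.
-/

set_option autoImplicit false

namespace Pool.Agent.Results.MP_29be01_nt.GaussianLaw

open Finset ProbabilityTheory

/-- The number of the affine points modulo `p` of `Y ^ 2 = X ^ 3 + c 2 X ^ 2 + c 1 X + c 0`. -/
noncomputable def points (p : ℕ) (c : Fin 3 → ℤ) : ℕ :=
  Nat.card {P : ZMod p × ZMod p // P.2 ^ 2 = P.1 ^ 3 + (c 2 : ZMod p) * P.1 ^ 2 + (c 1 : ZMod p) * P.1 + (c 0 : ZMod p)}

/-- `p` is odd and the curve `Y ^ 2 = X ^ 3 + c 2 X ^ 2 + c 1 X + c 0` is smooth modulo `p`. -/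
def Smooth (p : ℕ) (c : Fin 3 → ℤ) : Prop :=
  p ≠ 2 ∧ (Polynomial.X ^ 3 + Polynomial.C (c 2 : ZMod p) * Polynomial.X ^ 2 + Polynomial.C (c 1 : ZMod p) * Polynomial.X +
    Polynomial.C (c 0 : ZMod p)).Separable

open Classical in
/-- The trace of Frobenius `a_p = p + 1 - #E(F_p) = p - points`; it is `0` if the curve is not smooth modulo `p`. -/
noncomputable def trace (p : ℕ) (c : Fin 3 → ℤ) : ℤ := if Smooth p c then (p : ℤ) - points p c else 0

/-- The angle `x ∈ [0, 1]` with `a_p = 2 p ^ (1 / 2) cos (π x)` (it is `1 / 2` if the curve is not smooth modulo `p`). -/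
noncomputable def angle (p : ℕ) (c : Fin 3 → ℤ) : ℝ := Real.arccos ((trace p c : ℝ) / (2 * Real.sqrt p)) / Real.pi

/-- The sum of `φ (x_k, …, x_{k+s-1})` over `k < K`; `x_k` is the angle at the prime number `k` (`p_0 = 2`). -/
noncomputable def total (s : ℕ) (φ : (Fin s → ℝ) → ℝ) (K : ℕ) (c : Fin 3 → ℤ) : ℝ :=
  ∑ k ∈ range K, φ (fun i : Fin s => angle (Nat.nth Nat.Prime (k + i)) c)

/-- The member with the parameters `t` of a family: `Y ^ 2 = X ^ 3 + f_2(t) X ^ 2 + f_1(t) X + f_0(t)`. -/
noncomputable def member {d : ℕ} (f : Fin 3 → MvPolynomial (Fin d) ℤ) (t : Fin d → ℤ) : Fin 3 → ℤ := fun j => MvPolynomial.eval t (f j)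

/-- The product of the first `K + s` primes. -/
noncomputable def modulus (s K : ℕ) : ℕ := ∏ k ∈ range (K + s), Nat.nth Nat.Prime k

/-- The mean over the residues `t` modulo `q`. -/
noncomputable def residueMean {d : ℕ} (q : ℕ) (F : (Fin d → ℤ) → ℝ) : ℝ :=
  (∑ n ∈ Fintype.piFinset (fun _ : Fin d => range q), F (fun i => (n i : ℤ))) / (q : ℝ) ^ d

/-- The expected value: the mean of the total over the parameters modulo the product of the primes involved. -/
noncomputable def expected {d : ℕ} (s : ℕ) (φ : (Fin s → ℝ) → ℝ) (K : ℕ) (f : Fin 3 → MvPolynomial (Fin d) ℤ) : ℝ :=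
  residueMean (modulus s K) (fun t => total s φ K (member f t))

/-- The variance of the total over the parameters modulo the product of the primes involved. -/
noncomputable def variance {d : ℕ} (s : ℕ) (φ : (Fin s → ℝ) → ℝ) (K : ℕ) (f : Fin 3 → MvPolynomial (Fin d) ℤ) : ℝ :=
  residueMean (modulus s K) (fun t => (total s φ K (member f t) - expected s φ K f) ^ 2)

/-- The parameters `u + n`, `0 ≤ n_i < N_i`. -/
def params {d : ℕ} (N : Fin d → ℕ) : Finset (Fin d → ℕ) := Fintype.piFinset (fun i => range (N i))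

open Pool.Agent.K4H4.CL

/-- the summands as functions of the parameters -/
noncomputable def smd {d : ℕ} (s : ℕ) (φ : (Fin s → ℝ) → ℝ) (f : Fin 3 → MvPolynomial (Fin d) ℤ) (k : ℕ) (t : Fin d → ℤ) : ℝ :=
  φ (fun i : Fin s => angle (Nat.nth Nat.Prime (k + i)) (member f t))

lemma angle_congr (p : ℕ) (c c' : Fin 3 → ℤ) (h : ∀ i, (p : ℤ) ∣ c i - c' i) : angle p c = angle p c' := by
  have h1 : trace p c = trace p c' := Ell.trace_congr p c c' h
  unfold angle
  rw [h1]

lemma per_smd {d : ℕ} (s : ℕ) (φ : (Fin s → ℝ) → ℝ) (f : Fin 3 → MvPolynomial (Fin d) ℤ) (k : ℕ) :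
    PerZ (PI (Ico k (k + s))) (smd s φ f k) := by
  intro t t' h
  have key : ∀ i : Fin s, angle (pr (k + i)) (member f t) = angle (pr (k + i)) (member f t') := by
    intro i
    apply angle_congr
    intro j
    have h1 : pr (k + i) ∣ PI (Ico k (k + s)) := pr_dvd_PI (by rw [mem_Ico]; omega)
    have h2 : ((pr (k + i) : ℕ) : ℤ) ∣ ((PI (Ico k (k + s)) : ℕ) : ℤ) := Int.natCast_dvd_natCast.2 h1
    exact Ell.eval_congr ((pr (k + i) : ℕ) : ℤ) (f j) t t' (fun l => h2.trans (h l))
  have e : (fun i : Fin s => angle (pr (k + i)) (member f t)) = fun i : Fin s => angle (pr (k + i)) (member f t') := funext key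
  exact congrArg φ e

open Classical in
/-- **Theorem.** Let `s ≥ 1`.

(1) Let `d ≥ 0`, `η, ε > 0`. There is `C` such that for every family `Y ^ 2 = X ^ 3 + f_2(t) X ^ 2 + f_1(t) X + f_0(t)` with
polynomials in `d` parameters, every function `φ` of `s` variables with `|φ| ≤ 1`, all `K ≥ C` for which the variance is at least
`η K` and every box of parameters with sides at least `K ^ C`: the sum of `φ` over the vectors of `s` consecutive angles is normally
distributed over the box, with the mean and the variance of the finite-field model and an error at most `ε`.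

(2) Under the same conditions there is `δ > 0` such that the difference between the sum and its expected value is less than
`δ √K` for at most the proportion `ε` of the members.

(3) For the family of all `Y ^ 2 = X ^ 3 + t_2 X ^ 2 + t_1 X + t_0` and the product of the `s` consecutive cosines, the expected value
is `O(log K)` and the variance is `K / 4 ^ s + O(log K)`. -/
theorem result (s : ℕ) (hs : 1 ≤ s) :
    (∀ (d : ℕ) (η ε : ℝ), 0 < η → 0 < ε → ∃ C : ℕ, ∀ (f : Fin 3 → MvPolynomial (Fin d) ℤ) (φ : (Fin s → ℝ) → ℝ), (∀ x, |φ x| ≤ 1) →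
      ∀ (K : ℕ) (N : Fin d → ℕ) (u : Fin d → ℤ), C ≤ K → (∀ i, K ^ C ≤ N i) → η * K ≤ variance s φ K f → ∀ x : ℝ,
        |((((params N).filter (fun n => total s φ K (member f (fun i => u i + n i)) - expected s φ K f ≤
          x * Real.sqrt (variance s φ K f))).card : ℕ) : ℝ) / (∏ i, (N i : ℝ)) - (gaussianReal 0 1).real (Set.Iic x)| ≤ ε) ∧
    (∀ (d : ℕ) (η ε : ℝ), 0 < η → 0 < ε → ∃ δ : ℝ, 0 < δ ∧ ∃ C : ℕ, ∀ (f : Fin 3 → MvPolynomial (Fin d) ℤ) (φ : (Fin s → ℝ) → ℝ),
      (∀ x, |φ x| ≤ 1) → ∀ (K : ℕ) (N : Fin d → ℕ) (u : Fin d → ℤ), C ≤ K → (∀ i, K ^ C ≤ N i) → η * K ≤ variance s φ K f →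
        ((((params N).filter (fun n => |total s φ K (member f (fun i => u i + n i)) - expected s φ K f| < δ * Real.sqrt K)).card : ℕ) : ℝ) ≤
          ε * ∏ i, (N i : ℝ)) ∧
    (∃ C : ℝ, ∀ K : ℕ, 1 ≤ K →
      |expected s (fun x => ∏ i, Real.cos (Real.pi * x i)) K (fun j : Fin 3 => MvPolynomial.X j)| ≤ C * (1 + Real.log (K + 1)) ∧
      |variance s (fun x => ∏ i, Real.cos (Real.pi * x i)) K (fun j : Fin 3 => MvPolynomial.X j) - K / 4 ^ s| ≤
        C * (1 + Real.log (K + 1))) := by
  refine ⟨?_, ?_, ?_⟩
  · intro d η ε hη hε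
    obtain ⟨C, hC⟩ := normal_law d s hs η ε hη hε
    refine ⟨C + 1, fun f φ hφ K N u hK hN hV x => ?_⟩
    have hK1 : 1 ≤ K := by omega
    have h1 := hC (smd s φ f) (per_smd s φ f) (fun k t => hφ _) K N u (by omega)
      (fun i => (Nat.pow_le_pow_right hK1 (Nat.le_succ C)).trans (hN i)) hV x
    have hP : 0 < ∏ i, (N i : ℝ) := by
      apply prod_pos
      intro i _
      have h2 : 1 ≤ N i := (Nat.one_le_pow _ _ hK1).trans (hN i)
      exact_mod_cast h2
    have e : ∀ a b : ℝ, a / (∏ i, (N i : ℝ)) - b = (a - (∏ i, (N i : ℝ)) * b) / ∏ i, (N i : ℝ) := by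
      intro a b
      field_simp
    rw [e, abs_div, abs_of_pos hP, div_le_iff₀ hP]
    exact h1
  · intro d η ε hη hε
    obtain ⟨δ, hδ, C, hC⟩ := anti d s hs η ε hη hε
    exact ⟨δ, hδ, C, fun f φ hφ K N u hK hN hV => hC (smd s φ f) (per_smd s φ f) (fun k t => hφ _) K N u hK hN hV⟩
  · obtain ⟨C, hC, hm⟩ := Ell.mean_cosA
    refine ⟨C + (1 + 2 * s) * (4 * s * C), fun K hK => ?_⟩
    have hle : ∀ l : ℕ, C / (pr l : ℝ) ≤ C / (l + 1) := by
      intro l
      apply div_le_div_of_nonneg_left hC (by positivity)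
      exact_mod_cast Ell.pr_ge l
    have h1 := mean_var s hs (fun l => Ell.cosA (pr l)) (fun l => Ell.perZ_cosA _)
      (fun l t => Real.abs_cos_le_one _) C (1 / 4) hC (by norm_num)
      (fun l => ((hm (pr l) (pr_prime l)).1).trans (hle l)) (fun l => ((hm (pr l) (pr_prime l)).2).trans (hle l)) K hK
    have hwin : ∀ t : Fin 3 → ℤ, tot (win (fun l => Ell.cosA (pr l)) s) K t =
        total s (fun x => ∏ i, Real.cos (Real.pi * x i)) K (member (fun j : Fin 3 => MvPolynomial.X j) t) := by
      intro t
      have e1 : member (fun j : Fin 3 => MvPolynomial.X j) t = t := by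
        funext j
        unfold member
        rw [MvPolynomial.eval_X]
      rw [e1]
      unfold tot total win
      refine sum_congr rfl fun k _ => ?_
      rw [prod_range]
      rfl
    have e2 : mu (win (fun l => Ell.cosA (pr l)) s) s K =
        expected s (fun x => ∏ i, Real.cos (Real.pi * x i)) K (fun j : Fin 3 => MvPolynomial.X j) := by
      unfold mu expected
      have e : tot (win (fun l => Ell.cosA (pr l)) s) K = fun t => total s (fun x => ∏ i, Real.cos (Real.pi * x i)) K
        (member (fun j : Fin 3 => MvPolynomial.X j) t) := funext hwin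
      rw [e]
      rfl
    have e3 : va (win (fun l => Ell.cosA (pr l)) s) s K =
        variance s (fun x => ∏ i, Real.cos (Real.pi * x i)) K (fun j : Fin 3 => MvPolynomial.X j) := by
      unfold va variance
      rw [e2]
      have e : (fun t => (tot (win (fun l => Ell.cosA (pr l)) s) K t - expected s (fun x => ∏ i, Real.cos (Real.pi * x i)) K (fun j : Fin 3 => MvPolynomial.X j)) ^ 2) =
        fun t => (total s (fun x => ∏ i, Real.cos (Real.pi * x i)) K (member (fun j : Fin 3 => MvPolynomial.X j) t) -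
          expected s (fun x => ∏ i, Real.cos (Real.pi * x i)) K (fun j : Fin 3 => MvPolynomial.X j)) ^ 2 := by
        funext t
        rw [hwin]
      rw [e]
      rfl
    rw [e2, e3] at h1
    have hlog : 0 ≤ 1 + Real.log ((K : ℝ) + 1) := by
      have := Real.log_nonneg (by have : (0 : ℝ) ≤ K := Nat.cast_nonneg _; linarith : (1 : ℝ) ≤ (K : ℝ) + 1)
      linarith
    have hc1 : 0 ≤ (1 + 2 * (s : ℝ)) * (4 * s * C) := by positivity
    constructor
    · refine h1.1.trans ?_
      apply mul_le_mul_of_nonneg_right _ hlog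
      linarith
    · have e4 : (K : ℝ) / 4 ^ s = (1 / 4) ^ s * K := by
        rw [one_div, inv_pow]
        field_simp
      rw [e4]
      refine h1.2.trans ?_
      apply mul_le_mul_of_nonneg_right _ hlog
      linarith

end Pool.Agent.Results.MP_29be01_nt.GaussianLaw
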