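import Pool.Agent.K4H4.UL.Ind
import Pool.Agent.K4H4.CL.Ell

/-!
# The law of the discrepancy of the Frobenius angles at `s` consecutive primes in every polynomial family of elliptic curves

For every polynomial family in `d` parameters (the parameters in any box with sides at least `K ^ C`) the numbers of the `k < K'` for
which the angles at `s` consecutive primes are in a box, divided by `√K`, for all `K' ≤ K` and all boxes simultaneously, have the
same joint law as for angles at different primes that are independent (the angle at `p` being that of the member at a uniformly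
distributed parameter modulo `p`), up to an arbitrarily small error in the bounded Lipschitz metric for the supremum norm. In
particular the law of `√K` times the discrepancy of the question is the law for the independent angles.
-/

set_option autoImplicit false

namespace Pool.Agent.Results.MP_29be01_nt.LimitLaw

open Finset

/-- The number of the affine points modulo `p` of `Y ^ 2 = X ^ 3 + c 2 X ^ 2 + c 1 X + c 0`. -/
noncomputable def points (p : ℕ) (c : Fin 3 → ℤ) : ℕ :=
  Nat.card {P : ZMod p × ZMod p // P.2 ^ 2 = P.1 ^ 3 + (c 2 : ZMod p) * P.1 ^ 2 + (c 1 : ZMod p) * P.1 + (c 0 : ZMod p)}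

/-- `p` is odd and the curve `Y ^ 2 = X ^ 3 + c 2 X ^ 2 + c 1 X + c 0` is smooth modulo `p`. -/
def Smooth (p : ℕ) (c : Fin 3 → ℤ) : Prop :=
  p ≠ 2 ∧ (Polynomial.X ^ 3 + Polynomial.C (c 2 : ZMod p) * Polynomial.X ^ 2 + Polynomial.C (c 1 : ZMod p) * Polynomial.X +
    Polynomial.C (c 0 : ZMod p)).Separable

open Classical in
/-- The trace of Frobenius `a_p = p + 1 - #E(F_p) = p - points`; it is `0` if the curve is not smooth modulo `p`. -/
noncomputable def trace (p : ℕ) (c : Fin 3 → ℤ) : ℤ := if Smooth p c then (p : ℤ) - points p c else 0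

/-- The angle `x ∈ [0, 1]` with `a_p = 2 p ^ (1 / 2) cos (π x)` (it is `1 / 2` if the curve is not smooth modulo `p`). -/
noncomputable def angle (p : ℕ) (c : Fin 3 → ℤ) : ℝ := Real.arccos ((trace p c : ℝ) / (2 * Real.sqrt p)) / Real.pi

/-- The sequence of the angles of a curve at all the primes, numbered from `0`. -/
noncomputable def angles (c : Fin 3 → ℤ) (l : ℕ) : ℝ := angle (Nat.nth Nat.Prime l) c

open Classical in
/-- The number of the `k < K` for which `x k, …, x (k + s - 1)` are in `J 0, …, J (s - 1)`. -/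
noncomputable def hits (s K : ℕ) (x : ℕ → ℝ) (J : Fin s → Set ℝ) : ℕ :=
  ((range K).filter (fun k => ∀ i : Fin s, x (k + i) ∈ J i)).card

/-- The Sato-Tate measure of a set in `[0, 1]`. -/
noncomputable def satoTate (J : Set ℝ) : ℝ := ∫ u in J, 2 * Real.sin (Real.pi * u) ^ 2

/-- The discrepancy of the question for the vectors `(x k, …, x (k + s - 1))`, `k < K`: the supremum over the boxes
`[a_1, b_1) × ⋯ × [a_s, b_s)` in `[0, 1] ^ s`. -/
noncomputable def discrepancy (s K : ℕ) (x : ℕ → ℝ) : ℝ :=
  sSup {y | ∃ a b : Fin s → ℝ, (∀ i, 0 ≤ a i ∧ a i ≤ b i ∧ b i ≤ 1) ∧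
    y = |(hits s K x (fun i => Set.Ico (a i) (b i)) : ℝ) / K - ∏ i, satoTate (Set.Ico (a i) (b i))|}

/-- The member with the parameters `t` of a family: `Y ^ 2 = X ^ 3 + f_2(t) X ^ 2 + f_1(t) X + f_0(t)`. -/
noncomputable def member {d : ℕ} (f : Fin 3 → MvPolynomial (Fin d) ℤ) (t : Fin d → ℤ) : Fin 3 → ℤ := fun j => MvPolynomial.eval t (f j)

/-- The vectors `n` with `0 ≤ n_i < N_i`. -/
def params {d : ℕ} (N : Fin d → ℕ) : Finset (Fin d → ℕ) := Fintype.piFinset (fun i => range (N i))

/-- The choices of a residue `r l ∈ (ℤ / p_l) ^ d` for each of the first `L` primes `p_l`, independently of each other. -/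
noncomputable def choices (d L : ℕ) : Finset (Fin L → Fin d → ℕ) := Fintype.piFinset (fun l : Fin L => params (fun _ => Nat.nth Nat.Prime l))

/-- The sequence of angles of a choice: the angle at `p_l` is that of the member with the parameter `r l` (`0` for `l ≥ L`). -/
noncomputable def modelAngles {d : ℕ} (f : Fin 3 → MvPolynomial (Fin d) ℤ) (L : ℕ) (r : Fin L → Fin d → ℕ) (l : ℕ) : ℝ :=
  if h : l < L then angle (Nat.nth Nat.Prime l) (member f (fun i => (r ⟨l, h⟩ i : ℤ))) else 0

/-- The lengths `K' ≤ K` and the boxes `J 0 × ⋯ × J (s - 1)` of intervals (of any kind). -/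
def Tests (s K : ℕ) : Type := {p : ℕ × (Fin s → Set ℝ) // p.1 ≤ K ∧ ∀ i, (p.2 i).OrdConnected}

/-- The process of the counts: for all the lengths `K' ≤ K` and all boxes, the number of the `k < K'` with the vector
`(x k, …, x (k + s - 1))` in the box, divided by `√K`. -/
noncomputable def process (s K : ℕ) (x : ℕ → ℝ) (p : Tests s K) : ℝ := (hits s p.1.1 x p.1.2 : ℝ) / Real.sqrt K

/-- The average of a function over a finite set. -/
noncomputable def average {ι : Type} (A : Finset ι) (g : ι → ℝ) : ℝ := (∑ n ∈ A, g n) / A.card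

open Classical in
/-- The proportion of the elements of a finite set with a property. -/
noncomputable def proportion {ι : Type} (A : Finset ι) (P : ι → Prop) : ℝ := ((A.filter P).card : ℝ) / A.card

open Pool.Agent.K4H4.CL Pool.Agent.K4H4.SB Pool.Agent.K4H4.UL

/-- the angles as functions of the parameters -/
noncomputable def ang {d : ℕ} (f : Fin 3 → MvPolynomial (Fin d) ℤ) (l : ℕ) (t : Fin d → ℤ) : ℝ := angle (pr l) (member f t)

lemma angle_congr (p : ℕ) (c c' : Fin 3 → ℤ) (h : ∀ i, (p : ℤ) ∣ c i - c' i) : angle p c = angle p c' := by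
  have h1 : trace p c = trace p c' := Ell.trace_congr p c c' h
  unfold angle
  rw [h1]

lemma perV_ang {d : ℕ} (f : Fin 3 → MvPolynomial (Fin d) ℤ) : PerV (ang f) := by
  intro l t t' h
  apply angle_congr
  intro j
  exact Ell.eval_congr ((pr l : ℕ) : ℤ) (f j) t t' h

lemma cseq_hits (s K : ℕ) (x : ℕ → ℝ) (J : Fin s → Set ℝ) : cseq s K x J = hits s K x J := by
  classical
  unfold cseq hits
  rw [card_filter]
  push_cast
  refine sum_congr rfl fun k _ => ?_
  rw [Finset.prod_ite_zero]
  simp only [mem_univ, true_implies, prod_const_one]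

lemma satoTate_Ico (a b : ℝ) (h : a ≤ b) : satoTate (Set.Ico a b) = ∫ u in a..b, 2 * Real.sin (Real.pi * u) ^ 2 := by
  unfold satoTate
  rw [intervalIntegral.integral_of_le h, MeasureTheory.integral_Ico_eq_integral_Ioc]

lemma satoTate_bd (a b : ℝ) (h0 : 0 ≤ a) (h1 : a ≤ b) (h2 : b ≤ 1) : 0 ≤ satoTate (Set.Ico a b) ∧ satoTate (Set.Ico a b) ≤ 1 := by
  rw [satoTate_Ico a b h1]
  have hc : Continuous (fun u : ℝ => 2 * Real.sin (Real.pi * u) ^ 2) := by fun_prop
  constructor
  · exact intervalIntegral.integral_nonneg h1 fun u _ => by positivity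
  · have h3 : ∫ u in (0 : ℝ)..1, 2 * Real.sin (Real.pi * u) ^ 2 = 1 := by
      rw [intervalIntegral.integral_const_mul]
      have h4 := intervalIntegral.integral_comp_mul_left (a := 0) (b := 1) (fun x => Real.sin x ^ 2) Real.pi_ne_zero
      rw [h4, integral_sin_sq]
      simp
      field_simp
    rw [← h3]
    exact intervalIntegral.integral_mono_interval h0 h1 h2 (Filter.Eventually.of_forall fun u => by positivity) (hc.intervalIntegrable _ _)

lemma hits_le (s K : ℕ) (x : ℕ → ℝ) (J : Fin s → Set ℝ) : hits s K x J ≤ K := by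
  classical
  unfold hits
  refine (card_filter_le _ _).trans ?_
  rw [card_range]

/-- the boxes of the question -/
def Box (s : ℕ) : Type := {p : (Fin s → ℝ) × (Fin s → ℝ) // ∀ i, 0 ≤ p.1 i ∧ p.1 i ≤ p.2 i ∧ p.2 i ≤ 1}

/-- the boxes of the question as tests -/
def tst (s K : ℕ) (p : Box s) : ℕ × (Fin s → Set ℝ) := (K, fun i => Set.Ico (p.1.1 i) (p.1.2 i))

/-- the centring -/
noncomputable def ctr (s K : ℕ) (p : Box s) : ℝ := K * ∏ i, satoTate (Set.Ico (p.1.1 i) (p.1.2 i))

lemma disc_eq (s K : ℕ) (hK : 1 ≤ K) (x : ℕ → ℝ) :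
    Real.sqrt K * discrepancy s K x = ⨆ p : Box s, |Ws s K (tst s K) x p - ctr s K p / Real.sqrt K| := by
  have hK0 : (0 : ℝ) < K := by exact_mod_cast hK
  have hσ : 0 < Real.sqrt K := Real.sqrt_pos.2 hK0
  have hσ2 : Real.sqrt K * Real.sqrt K = K := Real.mul_self_sqrt hK0.le
  unfold discrepancy
  have e1 : {y | ∃ a b : Fin s → ℝ, (∀ i, 0 ≤ a i ∧ a i ≤ b i ∧ b i ≤ 1) ∧
      y = |(hits s K x (fun i => Set.Ico (a i) (b i)) : ℝ) / K - ∏ i, satoTate (Set.Ico (a i) (b i))|} =
      Set.range (fun p : Box s => |(hits s K x (fun i => Set.Ico (p.1.1 i) (p.1.2 i)) : ℝ) / K - ∏ i, satoTate (Set.Ico (p.1.1 i) (p.1.2 i))|) := by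
    ext y
    constructor
    · rintro ⟨a, b, hab, rfl⟩
      exact ⟨⟨(a, b), hab⟩, rfl⟩
    · rintro ⟨p, rfl⟩
      exact ⟨p.1.1, p.1.2, p.2, rfl⟩
  rw [e1]
  show Real.sqrt K * (⨆ p : Box s, |(hits s K x (fun i => Set.Ico (p.1.1 i) (p.1.2 i)) : ℝ) / K - ∏ i, satoTate (Set.Ico (p.1.1 i) (p.1.2 i))|) = _
  rw [Real.mul_iSup_of_nonneg hσ.le]
  congr 1
  funext p
  unfold Ws tst ctr
  rw [cseq_hits, ← abs_of_pos hσ, ← abs_mul, abs_of_pos hσ]
  congr 1
  rw [← sub_div, eq_div_iff hσ.ne', mul_comm (Real.sqrt K) _, mul_assoc, hσ2, sub_mul, div_mul_cancel₀ _ hK0.ne', mul_comm (∏ i, _) (K : ℝ)]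

lemma sup_close' {ι : Type} [Nonempty ι] (f g : ι → ℝ) (δ : ℝ) (h : ∀ i, |f i - g i| ≤ δ) : |(⨆ i, f i) - ⨆ i, g i| ≤ δ := by
  obtain ⟨i₀⟩ := (inferInstance : Nonempty ι)
  have hδ : 0 ≤ δ := (abs_nonneg _).trans (h i₀)
  have key : ∀ f g : ι → ℝ, (∀ i, |f i - g i| ≤ δ) → BddAbove (Set.range f) → BddAbove (Set.range g) := by
    rintro f g h ⟨M, hM⟩
    refine ⟨M + δ, ?_⟩
    rintro _ ⟨i, rfl⟩
    have h1 := (abs_le.1 (h i)).1
    have h2 := hM ⟨i, rfl⟩
    linarith
  by_cases hf : BddAbove (Set.range f)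
  · exact sup_close f g hf (key f g h hf) δ hδ h
  · have hg : ¬ BddAbove (Set.range g) := fun hg => hf (key g f (fun i => by rw [abs_sub_comm]; exact h i) hg)
    rw [Real.iSup_of_not_bddAbove hf, Real.iSup_of_not_bddAbove hg, sub_self, abs_zero]
    exact hδ

lemma sq_eq {d : ℕ} (f : Fin 3 → MvPolynomial (Fin d) ℤ) (L : ℕ) (r : Fin L → Fin d → ℕ) : sq (ang f) L r = modelAngles f L r := rfl

lemma Ws_process (s K : ℕ) (x : ℕ → ℝ) : Ws s K (fun p : Tests s K => p.1) x = process s K x := by
  funext p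
  unfold Ws process
  rw [cseq_hits]

lemma proportion_mono {ι : Type} (A : Finset ι) (P Q : ι → Prop) (h : ∀ n, P n → Q n) : proportion A P ≤ proportion A Q := by
  classical
  unfold proportion
  apply div_le_div_of_nonneg_right _ (Nat.cast_nonneg _)
  exact_mod_cast card_le_card (fun n hn => mem_filter.2 ⟨(mem_filter.1 hn).1, h n (mem_filter.1 hn).2⟩)

/-- **Theorem.** Let `s ≥ 1`, `d ≥ 0` and `ε > 0`. There is `C` such that for every family
`Y ^ 2 = X ^ 3 + f_2(t) X ^ 2 + f_1(t) X + f_0(t)` with polynomials in `d` parameters, all `K ≥ C` and every box of parameters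
`u + n`, `0 ≤ n_i < N_i`, with sides `N_i ≥ K ^ C`, the following holds.

(1) For every functional `Ψ`, bounded by `1` and Lipschitz with the constant `1` for the supremum norm, of the process of the counts
of all windows of `s` consecutive angles (for all lengths `K' ≤ K` and all boxes of intervals, divided by `√K`), the average of `Ψ` over
the members with these parameters differs by at most `ε` from its average for independent angles, the angle at the prime `p` being that
of the member for a uniformly distributed parameter modulo `p`.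

(2) The distance of Levy between the law of `√K D_K`, `D_K` the discrepancy of the question for the members with these parameters, and the
law of `√K D_K` for these independent angles is at most `ε`. -/
theorem result (s : ℕ) (hs : 1 ≤ s) (d : ℕ) (ε : ℝ) (hε : 0 < ε) : ∃ C : ℕ, ∀ (f : Fin 3 → MvPolynomial (Fin d) ℤ)
    (K : ℕ) (N : Fin d → ℕ) (u : Fin d → ℤ), C ≤ K → (∀ i, K ^ C ≤ N i) →
    (∀ Ψ : (Tests s K → ℝ) → ℝ, (∀ w, |Ψ w| ≤ 1) →
      (∀ (w w' : Tests s K → ℝ) (δ : ℝ), (∀ p, |w p - w' p| ≤ δ) → |Ψ w - Ψ w'| ≤ δ) →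
      |average (params N) (fun n => Ψ (process s K (angles (member f (fun i => u i + n i))))) -
        average (choices d (K + s)) (fun r => Ψ (process s K (modelAngles f (K + s) r)))| ≤ ε) ∧
    ∀ x : ℝ,
      proportion (params N) (fun n => Real.sqrt K * discrepancy s K (angles (member f (fun i => u i + n i))) ≤ x) ≤
        proportion (choices d (K + s)) (fun r => Real.sqrt K * discrepancy s K (modelAngles f (K + s) r) ≤ x + ε) + ε ∧
      proportion (choices d (K + s)) (fun r => Real.sqrt K * discrepancy s K (modelAngles f (K + s) r) ≤ x) ≤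
        proportion (params N) (fun n => Real.sqrt K * discrepancy s K (angles (member f (fun i => u i + n i))) ≤ x + ε) + ε := by
  obtain ⟨ε₁, hε₁⟩ : ∃ ε₁ : ℝ, ε₁ = min ε 1 := ⟨_, rfl⟩
  have hε₁0 : 0 < ε₁ := by rw [hε₁]; exact lt_min hε one_pos
  have hε₁1 : ε₁ ≤ 1 := by rw [hε₁]; exact min_le_right _ _
  have hε₁ε : ε₁ ≤ ε := by rw [hε₁]; exact min_le_left _ _
  obtain ⟨C₁, hC₁⟩ := law d s hs ε hε
  obtain ⟨C₂, hC₂⟩ := law d s hs (ε₁ ^ 2) (by positivity)
  refine ⟨C₁ + C₂ + 1, fun f K N u hK hN => ⟨fun Ψ hΨ1 hΨ => ?_, ?_⟩⟩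
  · have h1 := hC₁ (ang f) (perV_ang f) K N u (by omega) (fun i => (Nat.pow_le_pow_right (by omega) (by omega)).trans (hN i))
      (Tests s K) (fun p => p.1) (fun p => p.2) Ψ hΨ1 hΨ
    simp only [Ws_process, sq_eq] at h1
    exact h1
  · have hK1 : 1 ≤ K := by omega
    have hne : Nonempty (Box s) := ⟨⟨(fun _ => 0, fun _ => 0), fun i => ⟨le_rfl, le_rfl, by norm_num⟩⟩⟩
    have hψ : ∀ ψ : ℝ → ℝ, (∀ x, |ψ x| ≤ 1) → (∀ x y, |ψ x - ψ y| ≤ |x - y|) →
        |(∑ n ∈ params N, ψ (Real.sqrt K * discrepancy s K (angles (member f (fun i => u i + n i))))) / ((params N).card : ℝ) -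
          (∑ r ∈ choices d (K + s), ψ (Real.sqrt K * discrepancy s K (modelAngles f (K + s) r))) / ((choices d (K + s)).card : ℝ)| ≤ ε₁ ^ 2 := by
      intro ψ hψ1 hψ
      have h1 := hC₂ (ang f) (perV_ang f) K N u (by omega) (fun i => (Nat.pow_le_pow_right (by omega) (by omega)).trans (hN i))
        (Box s) (tst s K) (fun p => ⟨le_rfl, fun i => Set.ordConnected_Ico⟩) (fun w => ψ (⨆ p : Box s, |w p - ctr s K p / Real.sqrt K|))
        (fun w => hψ1 _) (fun w w' δ hδ => by
          refine (hψ _ _).trans (sup_close' _ _ δ fun p => ?_)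
          refine (abs_abs_sub_abs_le_abs_sub _ _).trans ?_
          rw [sub_sub_sub_cancel_right]
          exact hδ p)
      simp only [sq_eq] at h1
      simp only [disc_eq s K hK1]
      exact h1
    have hA : (params N).Nonempty := by
      rw [← card_pos]
      have h1 : (params N).card = ∏ i, N i := card_par N
      rw [h1]
      exact prod_pos fun i _ => lt_of_lt_of_le (Nat.pow_pos (by omega)) (hN i)
    have hB : (choices d (K + s)).Nonempty := by
      rw [← card_pos]
      have h1 : (choices d (K + s)).card = PI (range (K + s)) ^ d := card_res d (K + s)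
      rw [h1]
      exact Nat.pow_pos (PI_pos _)
    intro x
    constructor
    · have h1 := levy (params N) (choices d (K + s)) hA hB _ _ ε₁ hε₁0 hε₁1 hψ x
      have h2 := proportion_mono (choices d (K + s)) (fun r => Real.sqrt K * discrepancy s K (modelAngles f (K + s) r) ≤ x + ε₁)
        (fun r => Real.sqrt K * discrepancy s K (modelAngles f (K + s) r) ≤ x + ε) (fun r hr => by linarith)
      refine le_trans h1 ?_
      exact add_le_add h2 hε₁ε
    · have h1 := levy (choices d (K + s)) (params N) hB hA _ _ ε₁ hε₁0 hε₁1 (fun ψ h h' => by rw [abs_sub_comm]; exact hψ ψ h h') x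
      have h2 := proportion_mono (params N) (fun n => Real.sqrt K * discrepancy s K (angles (member f (fun i => u i + n i))) ≤ x + ε₁)
        (fun n => Real.sqrt K * discrepancy s K (angles (member f (fun i => u i + n i))) ≤ x + ε) (fun r hr => by linarith)
      refine le_trans h1 ?_
      exact add_le_add h2 hε₁ε

end Pool.Agent.Results.MP_29be01_nt.LimitLaw
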