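import Pool.Agent.K4H4.SB.Red
import Pool.Agent.K4H4.CL.Ell

/-!
# The discrepancy of the Frobenius angles at `s` consecutive primes against the discrepancy at single primes, in every polynomial
# family of elliptic curves

For all but a proportion `ε` of the members of a polynomial family in `d` parameters (the parameters in any box with sides at least
`K ^ C`), simultaneously for all lengths `K' ≤ K`:

* for all boxes the number of the windows in the box is given by the finite-field model with an error `A √K' (1 + log K') ^ 2`;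
* the discrepancy of the question for `s` consecutive angles is at most `s` times the discrepancy for single angles, plus `s ^ 2 / K'`
  times the sum of the squares of the vertical discrepancies, plus `A (1 + log K') ^ 2 / √K'`.

The constants depend only on `s`, `d`, `ε`.
-/

set_option autoImplicit false

namespace Pool.Agent.Results.MP_29be01_nt.ReductionToOneAngle

open Finset

/-- The number of the affine points modulo `p` of `Y ^ 2 = X ^ 3 + c 2 X ^ 2 + c 1 X + c 0`. -/
noncomputable def points (p : ℕ) (c : Fin 3 → ℤ) : ℕ :=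
  Nat.card {P : ZMod p × ZMod p // P.2 ^ 2 = P.1 ^ 3 + (c 2 : ZMod p) * P.1 ^ 2 + (c 1 : ZMod p) * P.1 + (c 0 : ZMod p)}

/-- `p` is odd and the curve `Y ^ 2 = X ^ 3 + c 2 X ^ 2 + c 1 X + c 0` is smooth modulo `p`. -/
def Smooth (p : ℕ) (c : Fin 3 → ℤ) : Prop :=
  p ≠ 2 ∧ (Polynomial.X ^ 3 + Polynomial.C (c 2 : ZMod p) * Polynomial.X ^ 2 + Polynomial.C (c 1 : ZMod p) * Polynomial.X +
    Polynomial.C (c 0 : ZMod p)).Separable

open Classical in
/-- The trace of Frobenius `a_p = p + 1 - #E(F_p) = p - points`; it is `0` if the curve is not smooth modulo `p`. -/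
noncomputable def trace (p : ℕ) (c : Fin 3 → ℤ) : ℤ := if Smooth p c then (p : ℤ) - points p c else 0

/-- The angle `x ∈ [0, 1]` with `a_p = 2 p ^ (1 / 2) cos (π x)` (it is `1 / 2` if the curve is not smooth modulo `p`). -/
noncomputable def angle (p : ℕ) (c : Fin 3 → ℤ) : ℝ := Real.arccos ((trace p c : ℝ) / (2 * Real.sqrt p)) / Real.pi

open Classical in
/-- The number of the `k < K` for which the angles at the `s` primes with the numbers `k, …, k + s - 1` are in `J 0, …, J (s - 1)`
(the primes are numbered from `0`). -/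
noncomputable def hits (s K : ℕ) (c : Fin 3 → ℤ) (J : Fin s → Set ℝ) : ℕ :=
  ((range K).filter (fun k => ∀ i : Fin s, angle (Nat.nth Nat.Prime (k + i)) c ∈ J i)).card

/-- The Sato-Tate measure of `[a, b)`. -/
noncomputable def satoTate (a b : ℝ) : ℝ := ∫ u in a..b, 2 * Real.sin (Real.pi * u) ^ 2

/-- The discrepancy of the question: the supremum over the boxes `[a_1, b_1) × ⋯ × [a_s, b_s)` in `[0, 1] ^ s`. -/
noncomputable def discrepancy (s K : ℕ) (c : Fin 3 → ℤ) : ℝ :=
  sSup {x | ∃ a b : Fin s → ℝ, (∀ i, 0 ≤ a i ∧ a i ≤ b i ∧ b i ≤ 1) ∧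
    x = |(hits s K c (fun i => Set.Ico (a i) (b i)) : ℝ) / K - ∏ i, satoTate (a i) (b i)|}

/-- The member with the parameters `t` of a family: `Y ^ 2 = X ^ 3 + f_2(t) X ^ 2 + f_1(t) X + f_0(t)`. -/
noncomputable def member {d : ℕ} (f : Fin 3 → MvPolynomial (Fin d) ℤ) (t : Fin d → ℤ) : Fin 3 → ℤ := fun j => MvPolynomial.eval t (f j)

open Classical in
/-- The proportion of the residues `t` modulo `p` for which the angle at `p` of the member is in `J`. -/
noncomputable def proportion {d : ℕ} (f : Fin 3 → MvPolynomial (Fin d) ℤ) (p : ℕ) (J : Set ℝ) : ℝ :=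
  (((Fintype.piFinset (fun _ : Fin d => range p)).filter (fun n => angle p (member f (fun i => (n i : ℤ))) ∈ J)).card : ℝ) / (p : ℝ) ^ d

/-- The vertical discrepancy: the discrepancy of the angles of the members modulo `p`. -/
noncomputable def vertical {d : ℕ} (f : Fin 3 → MvPolynomial (Fin d) ℤ) (p : ℕ) : ℝ :=
  sSup {x | ∃ a b : ℝ, 0 ≤ a ∧ a ≤ b ∧ b ≤ 1 ∧ x = |proportion f p (Set.Ico a b) - satoTate a b|}

/-- The parameters `u + n`, `0 ≤ n_i < N_i`. -/
def params {d : ℕ} (N : Fin d → ℕ) : Finset (Fin d → ℕ) := Fintype.piFinset (fun i => range (N i))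

open Pool.Agent.K4H4.CL Pool.Agent.K4H4.SB

/-- the angles as functions of the parameters -/
noncomputable def ang {d : ℕ} (f : Fin 3 → MvPolynomial (Fin d) ℤ) (l : ℕ) (t : Fin d → ℤ) : ℝ := angle (pr l) (member f t)

lemma angle_congr (p : ℕ) (c c' : Fin 3 → ℤ) (h : ∀ i, (p : ℤ) ∣ c i - c' i) : angle p c = angle p c' := by
  have h1 : trace p c = trace p c' := Ell.trace_congr p c c' h
  unfold angle
  rw [h1]

lemma perV_ang {d : ℕ} (f : Fin 3 → MvPolynomial (Fin d) ℤ) : PerV (ang f) := by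
  intro l t t' h
  apply angle_congr
  intro j
  exact Ell.eval_congr ((pr l : ℕ) : ℤ) (f j) t t' h

lemma cnt_ang {d : ℕ} (f : Fin 3 → MvPolynomial (Fin d) ℤ) (s K : ℕ) (J : Fin s → Set ℝ) (t : Fin d → ℤ) :
    cnt (ang f) s K J t = hits s K (member f t) J := by
  classical
  unfold cnt hits
  rw [card_filter]
  push_cast
  refine sum_congr rfl fun k _ => ?_
  unfold ival
  rw [Finset.prod_ite_zero]
  simp only [mem_univ, true_implies, prod_const_one]
  rfl

lemma prop_ang {d : ℕ} (f : Fin 3 → MvPolynomial (Fin d) ℤ) (l : ℕ) (J : Set ℝ) :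
    prop (ang f) (fun x => x ∈ J) l = proportion f (Nat.nth Nat.Prime l) J := by
  classical
  unfold prop meanZ proportion
  congr 1
  rw [card_filter]
  push_cast
  refine sum_congr rfl fun n _ => ?_
  unfold ival
  rfl

lemma satoTate_bd (a b : ℝ) (h0 : 0 ≤ a) (h1 : a ≤ b) (h2 : b ≤ 1) : 0 ≤ satoTate a b ∧ satoTate a b ≤ 1 := by
  have hc : Continuous (fun u : ℝ => 2 * Real.sin (Real.pi * u) ^ 2) := by fun_prop
  constructor
  · exact intervalIntegral.integral_nonneg h1 fun u _ => by positivity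
  · have h3 : satoTate 0 1 = 1 := by
      unfold satoTate
      rw [intervalIntegral.integral_const_mul]
      have h4 := intervalIntegral.integral_comp_mul_left (a := 0) (b := 1) (fun x => Real.sin x ^ 2) Real.pi_ne_zero
      rw [h4, integral_sin_sq]
      simp
      field_simp
    rw [← h3]
    unfold satoTate
    exact intervalIntegral.integral_mono_interval h0 h1 h2 (Filter.Eventually.of_forall fun u => by positivity) (hc.intervalIntegrable _ _)

lemma hits_le (s K : ℕ) (c : Fin 3 → ℤ) (J : Fin s → Set ℝ) : (hits s K c J : ℝ) / K ≤ 1 := by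
  apply div_le_one_of_le₀ _ (Nat.cast_nonneg _)
  have h : hits s K c J ≤ K := by
    classical
    unfold hits
    refine (card_filter_le _ _).trans ?_
    rw [card_range]
  exact_mod_cast h

lemma bdd_disc (s K : ℕ) (c : Fin 3 → ℤ) : BddAbove {x | ∃ a b : Fin s → ℝ, (∀ i, 0 ≤ a i ∧ a i ≤ b i ∧ b i ≤ 1) ∧
    x = |(hits s K c (fun i => Set.Ico (a i) (b i)) : ℝ) / K - ∏ i, satoTate (a i) (b i)|} := by
  refine ⟨1, ?_⟩
  rintro x ⟨a, b, hab, rfl⟩
  have h1 := hits_le s K c (fun i => Set.Ico (a i) (b i))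
  have h2 : 0 ≤ (hits s K c (fun i => Set.Ico (a i) (b i)) : ℝ) / K := by positivity
  have h3 : 0 ≤ ∏ i, satoTate (a i) (b i) := prod_nonneg fun i _ => (satoTate_bd _ _ (hab i).1 (hab i).2.1 (hab i).2.2).1
  have h4 : ∏ i, satoTate (a i) (b i) ≤ 1 := prod_le_one (fun i _ => (satoTate_bd _ _ (hab i).1 (hab i).2.1 (hab i).2.2).1)
    fun i _ => (satoTate_bd _ _ (hab i).1 (hab i).2.1 (hab i).2.2).2
  rw [abs_le]
  constructor <;> linarith

lemma bdd_vert {d : ℕ} (f : Fin 3 → MvPolynomial (Fin d) ℤ) (l : ℕ) :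
    BddAbove {x | ∃ a b : ℝ, 0 ≤ a ∧ a ≤ b ∧ b ≤ 1 ∧ x = |proportion f (Nat.nth Nat.Prime l) (Set.Ico a b) - satoTate a b|} := by
  refine ⟨1, ?_⟩
  rintro x ⟨a, b, ha, hab, hb, rfl⟩
  have h1 := satoTate_bd a b ha hab hb
  have h2 := prop_nonneg (ang f) (fun x => x ∈ Set.Ico a b) l
  have h3 := prop_le_one (ang f) (fun x => x ∈ Set.Ico a b) l
  rw [prop_ang] at h2 h3
  rw [abs_le]
  constructor <;> linarith [h1.1, h1.2]

/-- **Theorem.** Let `s ≥ 1`, `d ≥ 0` and `ε > 0`. There are `C` and `A` such that for every family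
`Y ^ 2 = X ^ 3 + f_2(t) X ^ 2 + f_1(t) X + f_0(t)` with polynomials in `d` parameters, all `K ≥ C` and every box of parameters
`u + n`, `0 ≤ n_i < N_i`, with sides `N_i ≥ K ^ C`, all but at most a proportion `ε` of the members have the following two properties
for all `1 ≤ K' ≤ K`.

(1) For all intervals `J_1, …, J_s` (of any kind) the number of the `k < K'` for which the angles at the `s` consecutive primes with the
numbers `k, …, k + s - 1` are in `J_1, …, J_s` differs from the sum over `k < K'` of the product of the proportions of the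
residues modulo these primes by at most `A √K' (1 + log K') ^ 2`.

(2) The discrepancy of the vectors of `s` consecutive angles is at most `s` times the discrepancy of the angles, plus `s ^ 2 / K'` times
the sum of the squares of the vertical discrepancies at the first `K' + s` primes, plus `A (1 + log K') ^ 2 / √K'`. -/
theorem result (s : ℕ) (hs : 1 ≤ s) (d : ℕ) (ε : ℝ) (hε : 0 < ε) : ∃ (C : ℕ) (A : ℝ), ∀ (f : Fin 3 → MvPolynomial (Fin d) ℤ)
    (K : ℕ) (N : Fin d → ℕ) (u : Fin d → ℤ), C ≤ K → (∀ i, K ^ C ≤ N i) →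
    ∃ B : Finset (Fin d → ℕ), (B.card : ℝ) ≤ ε * ∏ i, (N i : ℝ) ∧
      ∀ n ∈ params N, n ∉ B → ∀ K' : ℕ, 1 ≤ K' → K' ≤ K →
        (∀ J : Fin s → Set ℝ, (∀ i, (J i).OrdConnected) →
          |(hits s K' (member f (fun i => u i + n i)) J : ℝ) - ∑ k ∈ range K', ∏ i : Fin s, proportion f (Nat.nth Nat.Prime (k + i)) (J i)| ≤
            A * Real.sqrt K' * (1 + Real.log K') ^ 2) ∧
        discrepancy s K' (member f (fun i => u i + n i)) ≤ s * discrepancy 1 K' (member f (fun i => u i + n i)) +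
          s ^ 2 / K' * ∑ l ∈ range (K' + s), vertical f (Nat.nth Nat.Prime l) ^ 2 + A * (1 + Real.log K') ^ 2 / Real.sqrt K' := by
  obtain ⟨C, A, hA, hred⟩ := reduction d s hs ε hε
  refine ⟨C, A, fun f K N u hK hN => ?_⟩
  obtain ⟨B, hB, hg⟩ := hred (ang f) (perV_ang f) K N u hK hN
  refine ⟨B, hB, fun n hn hnB K' hK'1 hK' => ⟨fun J hJ => ?_, ?_⟩⟩
  · have h1 := (hg n hn hnB K' hK'1 hK' J hJ).1
    rw [cnt_ang] at h1
    have h2 : ex (ang f) s K' J = ∑ k ∈ range K', ∏ i : Fin s, proportion f (Nat.nth Nat.Prime (k + i)) (J i) := by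
      unfold ex
      exact sum_congr rfl fun k _ => prod_congr rfl fun i _ => prop_ang f (k + i) (J i)
    rw [h2] at h1
    exact h1
  · have hK'r : (0 : ℝ) < K' := by exact_mod_cast hK'1
    unfold discrepancy
    apply csSup_le
    · exact ⟨_, fun _ => 0, fun _ => 0, fun i => ⟨le_rfl, le_rfl, by norm_num⟩, rfl⟩
    rintro x ⟨a, b, hab, rfl⟩
    have hst : ∀ i, 0 ≤ satoTate (a i) (b i) ∧ satoTate (a i) (b i) ≤ 1 := fun i => satoTate_bd _ _ (hab i).1 (hab i).2.1 (hab i).2.2
    have h1 := (hg n hn hnB K' hK'1 hK' (fun i => Set.Ico (a i) (b i)) (fun i => Set.ordConnected_Ico)).2 (fun i => satoTate (a i) (b i))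
      (fun l => vertical f (Nat.nth Nat.Prime l)) hst (by
        intro l i
        rw [prop_ang]
        exact le_csSup (bdd_vert f l) ⟨a i, b i, (hab i).1, (hab i).2.1, (hab i).2.2, rfl⟩)
    rw [cnt_ang] at h1
    obtain ⟨c, hc⟩ : ∃ c, c = member f (fun i => u i + n i) := ⟨_, rfl⟩
    obtain ⟨D, hD⟩ : ∃ D, D = sSup {x | ∃ a b : Fin 1 → ℝ, (∀ i, 0 ≤ a i ∧ a i ≤ b i ∧ b i ≤ 1) ∧
      x = |(hits 1 K' c (fun i => Set.Ico (a i) (b i)) : ℝ) / K' - ∏ i, satoTate (a i) (b i)|} := ⟨_, rfl⟩
    have h2 : ∀ i ∈ (univ : Finset (Fin s)), |cnt (ang f) 1 K' (fun _ => Set.Ico (a i) (b i)) (fun i => u i + n i) - K' * satoTate (a i) (b i)| ≤ K' * D := by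
      intro i _
      rw [cnt_ang, ← hc]
      have h3 : |(hits 1 K' c (fun _ => Set.Ico (a i) (b i)) : ℝ) / K' - satoTate (a i) (b i)| ≤ D := by
        rw [hD]
        refine le_csSup (bdd_disc 1 K' c) ⟨fun _ => a i, fun _ => b i, fun _ => hab i, ?_⟩
        rw [Fin.prod_univ_one]
      have h4 : |(hits 1 K' c (fun _ => Set.Ico (a i) (b i)) : ℝ) - K' * satoTate (a i) (b i)| =
          K' * |(hits 1 K' c (fun _ => Set.Ico (a i) (b i)) : ℝ) / K' - satoTate (a i) (b i)| := by
        rw [← abs_of_pos hK'r, ← abs_mul, abs_of_pos hK'r]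
        congr 1
        field_simp
      rw [h4]
      exact mul_le_mul_of_nonneg_left h3 hK'r.le
    have h5 := sum_le_sum h2
    rw [sum_const, card_univ, Fintype.card_fin, nsmul_eq_mul] at h5
    rw [← hc] at h1 ⊢
    rw [← hD]
    obtain ⟨V, hV⟩ : ∃ V, V = ∑ l ∈ range (K' + s), vertical f (Nat.nth Nat.Prime l) ^ 2 := ⟨_, rfl⟩
    rw [← hV] at h1 ⊢
    have h6 : |(hits s K' c (fun i => Set.Ico (a i) (b i)) : ℝ) / K' - ∏ i, satoTate (a i) (b i)| =
        |(hits s K' c (fun i => Set.Ico (a i) (b i)) : ℝ) - K' * ∏ i, satoTate (a i) (b i)| / K' := by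
      rw [← abs_of_pos hK'r, ← abs_div, abs_of_pos hK'r]
      congr 1
      field_simp
    rw [h6, div_le_iff₀ hK'r]
    have hsq : Real.sqrt K' * Real.sqrt K' = K' := Real.mul_self_sqrt hK'r.le
    have hsq0 : 0 < Real.sqrt K' := Real.sqrt_pos.2 hK'r
    have h7 : (s * D + s ^ 2 / K' * V + A * (1 + Real.log K') ^ 2 / Real.sqrt K') * K' =
        s * (K' * D) + s ^ 2 * V + A * Real.sqrt K' * (1 + Real.log K') ^ 2 := by
      have e1 : A * (1 + Real.log K') ^ 2 / Real.sqrt K' * K' = A * Real.sqrt K' * (1 + Real.log K') ^ 2 := by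
        rw [div_mul_eq_mul_div, div_eq_iff hsq0.ne']
        calc A * (1 + Real.log K') ^ 2 * K' = A * (1 + Real.log K') ^ 2 * (Real.sqrt K' * Real.sqrt K') := by rw [hsq]
          _ = _ := by ring
      have e2 : s ^ 2 / (K' : ℝ) * V * K' = s ^ 2 * V := by field_simp
      rw [add_mul, add_mul, e1, e2]
      ring
    rw [h7]
    linarith

end Pool.Agent.Results.MP_29be01_nt.ReductionToOneAngle
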