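import Mathlib
import Pool.Agent.K4H16.CG.Om3

/-! # For almost all elliptic curves over `ℚ` the discrepancy of the Frobenius angles is larger than `B / √K` at every scale -/

set_option autoImplicit false

namespace Pool.Agent.Results.MP_29be01_nt.UnboundedDiscrepancy

open Finset Pool.Agent.K4H16.CG

open Classical in
/-- **For almost all elliptic curves the normalised discrepancy `√K D_K` exceeds every bound, at every scale.** Let `k`, `B` and
`ε > 0`. For every dimension `s ≥ 1` there are `A`, `X` and `κ > 0` such that for every `K₀ ≥ X` and in every box of integer points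
`(a, b)` with sides at least `K₀ ^ A`, at any place, the following holds for all but a proportion `ε` of the curves
`y² = x³ + a x + b`: for the sequence `x` of the Frobenius angles of the curve over `ℚ` (nothing is required of `x` at the primes `2`,
`3` and at the primes at which the equation is not minimal), there are at least `k` different `K` with `κ K₀ ≤ K ≤ K₀` and
`√K D_K ≥ B`, where `D_K` is the star discrepancy of the first `K` vectors of `s` consecutive angles, with respect to the `s`-fold
Sato–Tate measure.

Moreover no approximation of the number of the positive traces can be better: for EVERY sequence `c` of real numbers and all such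
boxes, for all but a proportion `ε` of the curves the number of the `j < K` for which the trace of Frobenius at the prime number `j` is
positive differs from `c K` by at least `B √K` for at least `k` different `K` with `κ K₀ ≤ K ≤ K₀`. -/
theorem result (k : ℕ) (B ε : ℝ) (hε : 0 < ε) :
    (∀ s : ℕ, 1 ≤ s → ∃ (A X : ℕ) (κ : ℝ), 0 < κ ∧ ∀ K₀ : ℕ, X ≤ K₀ →
      ∀ (M : Fin 2 → ℤ) (N : Fin 2 → ℕ), (∀ i, K₀ ^ A ≤ N i) →
      (((box M N).filter (fun v => ¬ ∀ x : ℕ → ℝ, IsAngles (v 0) (v 1) x →
        k ≤ ((Icc 1 K₀).filter (fun K : ℕ => κ * K₀ ≤ K ∧ B ≤ √K * discrepancy x s K)).card)).card : ℝ) ≤ ε * (box M N).card) ∧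
    (∃ (A X : ℕ) (κ : ℝ), 0 < κ ∧ ∀ K₀ : ℕ, X ≤ K₀ →
      ∀ (c : ℕ → ℝ) (M : Fin 2 → ℤ) (N : Fin 2 → ℕ), (∀ i, K₀ ^ A ≤ N i) →
      (((box M N).filter (fun v => ¬ k ≤ ((Icc 1 K₀).filter (fun K : ℕ => κ * K₀ ≤ K ∧
        B * √K ≤ |(((range K).filter (fun j => 0 < apAt (v 0) (v 1) (pn j))).card : ℝ) - c K|)).card)).card : ℝ) ≤
        ε * (box M N).card) :=
  ⟨fun s hs => omega_true s k hs B ε hε, omega_main k B ε hε⟩

end Pool.Agent.Results.MP_29be01_nt.UnboundedDiscrepancy
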